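import Mathlib
import Pool.Graph.R_seed8.Y153.QTN3
import Pool.Graph.R_seed8.W109.GA.Fin

/-!
# Project QR (helper577): Bernoulli numbers near rational multiples of `p`

Goal: for almost all primes `p ≡ 5 (mod 8)`, `p` divides neither of the numerators of
`B_{(p+3)/4}`, `B_{(3p+1)/4}` (imaginary quartic subfield of `ℚ(ζ_p)`).

Every `S_X` below is an independent statement; the docstring is a complete paper proof.
-/

set_option autoImplicit false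

namespace Pool.Agent.H577.QR

open Finset Filter
open Pool.Agent.Y153.QN3 (Sym)
open Pool.Agent.W78.GA (Sp gd S_SELB)

/-- the primes `l` with `y < l ≤ z` -/
def pr (y z : ℕ) : Finset ℕ := (Ioc y z).filter Nat.Prime

/-- the sum of the values of the character over the first half of the residues -/
noncomputable def SH {p : ℕ} (χ : DirichletCharacter ℂ p) : ℂ :=
  ∑ a ∈ range ((p + 1) / 2), χ (a : ZMod p)

/-- `a² + t a b + c b²` -/
def Qf (t c a b : ℤ) : ℤ := a ^ 2 + t * a * b + c * b ^ 2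

/-- (E1) If `p ≡ d + 1 (mod 2d)` divides the numerator of one of the Bernoulli numbers, then
`p ∣ |SH χ|²` for an odd character `χ` of order `d`. Needed for `d = 4` and `d = 6`.

Proof. Put `e = (p - 1)/d` (odd), `g` a generator of `(ZMod p)ˣ`, `ζ = exp (2 π i / d)` and `χ` the
character with `χ g = ζ`; its order is `d` and `χ (-1) = χ (g ^ ((p-1)/2)) = ζ ^ ((p-1)/2) =
(-1) ^ e = -1`. As `ζ ^ 2 = -1` (`d = 4`), `ζ ^ 2 = ζ - 1` (`d = 6`), there are `U V : ℕ → ℤ` with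
`ζ ^ j = U j + V j * ζ`, given by a recursion, and so `SH χ = u + v ζ` with `u, v ∈ ℤ`,
`‖SH χ‖² = u² + v²` (`d = 4`), `u² + u v + v²` (`d = 6`), a natural number. Let `h = g ^ e` in
`ZMod p`; `h` has order `d`, so `h² = -1` (`d = 4`), `h² = h - 1` (`d = 6`, as `h³ = -1`, `h ≠ -1`).
The same recursion gives `∑_{a < (p+1)/2} a ^ e = ∑ h ^ (ind a) = u + v h` and, with `h⁻¹` for `h`
(`h⁻¹` is a root of the same equation; `a ^ ((d-1) e) = h ^ (-ind a)` for `a ≠ 0`),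
`∑ a ^ ((d-1) e) = u + v h⁻¹` in `ZMod p`. As `(u + v h)(u + v h⁻¹) = u² + v²`
(`d = 4`: `h + h⁻¹ = 0`), `= u² + u v + v²` (`d = 6`: `h + h⁻¹ = 1`), it is enough to see that one of
the two sums is `0` in `ZMod p`.
If `p = d + 1` the numerators are those of `B_2, B_4` (`1, -1`), `B_2, B_6` (`1, 1`): nothing to
prove. Otherwise let `n = e` or `n = (d-1) e`, so `1 ≤ n`, `n + 1 < p - 1`, `n` odd. The numbers `B_i`,
`i ≤ n + 1`, are `p`-integral (von Staudt, or directly from the recursion `B_i = - 1/(i+1) ∑_{k<i}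
binom(i+1,k) B_k` as `i + 1 < p`). By `Finset.sum_range_pow` (or the Bernoulli polynomial), for every
natural number `M`: `∑_{a<M} a^n = (β(M) - β(0))/(n+1)`, where `β = Polynomial.bernoulli (n+1)` has
`p`-integral coefficients; hence `∑_{a < (p+1)/2} a^n ≡ (β(1/2) - β(0))/(n+1)` modulo `p` in the
local ring `ℤ_(p)`, as `(p+1)/2 ≡ 1/2`, and `β(1/2) = (2^{-n} - 1) B_{n+1}` (multiplication theorem).
So the sum is `(2^{-n} - 2) B_{n+1}/(n+1)`, which is divisible by `p` if `p` divides the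
numerator of `B_{n+1}`. (Without the multiplication theorem: `2^n ∑_{a < (p+1)/2} a^n` is the sum of
the `n`-th powers of the even numbers below `p + 1`; for odd `n` the map `a ↦ p - a` exchanges even
and odd numbers, changing the sign modulo `p`, ...; another way to get the same identity is to use
`∑_{a<p} a^n [a even] ` and `∑_{a < p} a^{n+1} ≡ p B_{n+1} (mod p²)`.) -/
def S_E1 (d : ℕ) : Prop := ∀ p : ℕ, p.Prime → p % (2 * d) = d + 1 →
  ((p : ℤ) ∣ (bernoulli ((p - 1) / d + 1)).num ∨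
    (p : ℤ) ∣ (bernoulli ((d - 1) * ((p - 1) / d) + 1)).num) →
  ∃ χ : DirichletCharacter ℂ p, orderOf χ = d ∧ χ.Odd ∧ ∃ m : ℕ, ‖SH χ‖ ^ 2 = m * p

/-- (E2) The half sum of an odd character modulo a prime in terms of `L(1, χ)`.

Proof. `L(1, χ̄)` (same absolute value as `L(1, χ)`) is
`(π i τ(χ̄)/p²) ∑_{a=1}^{p-1} a χ(a)` up to sign, so `|L(1,χ)| = π p^{-3/2} |∑ a χ(a)|`
(for instance from `sinZeta x 1 = π (1/2 - x)`, `0 < x < 1`, in
`Pool.Graph.R_seed8.H916R2.ExpZetaOne`, see also `H916R2.OddChar`, and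
`L(s, χ̄) = τ(χ)⁻¹ ∑_a χ(a) expZeta(a/p, s)`; Gauss sum of absolute value `√p`). Moreover
`p · SH χ = (χ̄(2) - 2) ∑_{a=1}^{p-1} a χ(a)`: put `T = ∑ a χ(a)`, `H = SH χ`; splitting
`T` at `p/2` and `a ↦ p - a`: `T = 2 ∑_{a<p/2} a χ(a) - p H`; splitting into even and odd `a`
(the odd ones are `p - 2b`, the even ones `2b`, `b < p/2`):
`T = 4 χ(2) ∑_{b<p/2} b χ(b) - p χ(2) H`. Eliminate the sum: `T (1 - 2 χ(2)) = p χ(2) H`, i.e.
`p H = (χ̄(2) - 2) T`. Take absolute values, `‖χ̄(2) - 2‖ = ‖2 - χ(2)‖`. -/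
def S_E2 : Prop := ∀ (p : ℕ) [NeZero p], p.Prime → 2 < p → ∀ χ : DirichletCharacter ℂ p, χ.Odd →
  ‖SH χ‖ ^ 2 * Real.pi ^ 2 =
    p * ‖2 - χ ((2 : ℕ) : ZMod p)‖ ^ 2 * ‖DirichletCharacter.LFunction χ 1‖ ^ 2

/-- (LAC) lacunary primes: the sum of the logarithms determines the real parts.

Proof. Induction on `k`. `k = 0`: `T = ∅`, `γ = 1`. Step: let `T, γ` be given for `k` (primes above
`y₀`); for `w^d = 1` and a prime `l` the number `‖1 - w/l‖² = 1 - 2 Re w / l + 1/l²` is an injective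
function of `Re w`, and there are at most `d` values of `w`; `|log ‖1 - w/l‖| ≤ 2/l` for `l ≥ 3`.
Take a prime `l` larger than `y₀`, `2`, all elements of `T`, with `4/l ≤ γ/2`. Let `γ'` be
the minimum of `γ/2` and of half of the smallest positive difference
`|log ‖1 - w/l‖ - log ‖1 - w'/l‖|` (finitely many values, so there is a positive minimum). If the two
sums over `T ∪ {l}` differ by at most `γ'` then those over `T` differ by at most `γ/2 + 4/l ≤ γ`, so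
`Re w = Re w'` on `T`; the sums over `T` are then equal (the norm depends only on
the real part) and the terms at `l` differ by at most `γ'`, so they are equal. -/
def S_LAC : Prop := ∀ (d k y₀ : ℕ), 0 < d → ∃ T : Finset ℕ, T.card = k ∧
  (∀ l ∈ T, l.Prime ∧ y₀ < l ∧ 2 < l) ∧ ∃ γ : ℝ, 0 < γ ∧ ∀ w w' : ℕ → ℂ,
  (∀ l ∈ T, w l ^ d = 1 ∧ w' l ^ d = 1) →
  |∑ l ∈ T, Real.log ‖1 - w l / l‖ - ∑ l ∈ T, Real.log ‖1 - w' l / l‖| ≤ γ →
  ∀ l ∈ T, (w l).re = (w' l).re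

open scoped Classical in
/-- (A1) `L(1, χ)` is close to the Euler product over the primes up to `x⁴` for all but few
primitive characters of conductor at most `x`.

Proof. `Z = x⁴`, `σ = (log x)^{-4}`. Let `R = ∑_{n} χ(n) n^{-1-σ}` over the `n` without prime factor
`≤ Z`, so `R = L(1+σ, χ) ∏_{l ≤ Z} (1 - χ(l) l^{-1-σ})`. In `Pool.Graph.R_seed8.Y122.PSP.Bad`
(`Lj z χ 0 σ = R` with `z = Z`; `g_hasSum`, `sum_range_g`, `block`, `geo`) it is shown with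
`Pool.Agent.Helper112.mult_large_sieve` that for every finite set `B` of conductors `f ≤ x` with
chosen primitive characters `∑_{f ∈ B} ‖R - 1‖ ≤ √(18 |B|) · 2/σ`; hence at most
`72 σ^{-2} δ^{-2} = 72 (log x)^8 δ^{-2}` conductors have a primitive character with `‖R - 1‖ > δ`
(exactly the argument of `bad` there, with `δ` in place of `1/2`).
Comparison of `1 + σ` and `1` for a nontrivial `χ` modulo `f ≤ x`: `‖L(1,χ)‖ ≤ 2 + log f`-type bound
and `‖L(1+σ,χ) - L(1,χ)‖ ≤ C σ (log f + 1)²` (write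
`L(s,χ) = ∑_{n ≤ f} χ(n) n^{-s} + O(|s| f · f^{-s})` by partial summation from
`‖∑_{n ≤ N} χ(n)‖ ≤ f`; difference termwise, `|n^{-1-σ} - n^{-1}| ≤ σ log n / n`). Any polynomial bound
in `log f` is good enough if `σ` is a large negative power of `log x`. And
`‖∏_{l ≤ Z} (1 - χ(l)/l)‖ ≤ ∏ (1 + 1/l) ≤ C log Z`,
`‖∏ (1 - χ(l) l^{-1-σ}) - ∏ (1 - χ(l)/l)‖ ≤ (∏ (1 + 1/l)) ∑_{l ≤ Z} (1/l - l^{-1-σ}) ≤
C log Z · σ ∑_{l≤Z} log l / l ≤ C σ log² Z`. So `‖L(1,χ) ∏_{l ≤ Z}(1 - χ(l)/l) - R‖ → 0`. -/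
def S_A1 : Prop := ∀ ε : ℝ, 0 < ε → ∃ x₀ : ℕ, ∀ x : ℕ, x₀ ≤ x →
  (((Icc 3 x).filter (fun f => ∃ (_ : NeZero f) (χ : DirichletCharacter ℂ f), χ.IsPrimitive ∧
    ε < ‖DirichletCharacter.LFunction χ 1 *
      ∏ l ∈ pr 0 (x ^ 4), (1 - χ (l : ZMod f) / l) - 1‖)).card : ℝ) ≤ (x : ℝ) ^ (1 / 4 : ℝ)

open scoped Classical in
/-- (A2) the sum of `χ(l)/l` over the primes between `(log x)^20` and `x⁴` is small for all but few
primitive characters of conductor at most `x`.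

Proof. Split `(z, x⁴]` into the dyadic blocks `(2^j, 2^{j+1}] ∩ (z, x⁴]`, `j ≥ j₀ = ⌊log₂ z⌋`. If
every block sum is at most `1/j²` in absolute value the total is at most `∑_{j ≥ j₀} 1/j² ≤ 2/j₀ ≤ ε`
for large `x`. Fix `j`, `N = 2^j`, and let `k` be minimal with `(2N)^k ≥ x²`, so
`k ≤ 2 log x / log (2N) + 1`. The `k`-th power of the block sum is `∑_m c_m χ(m)`, `m ≤ (2N)^k`,
`c_m = (number of k-tuples of primes of the block with product m)/m`, this number is at most `k!`, so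
`∑ |c_m|² ≤ k! N^{-k} ∑_m c_m = k! N^{-k} (∑_{l} 1/l)^k ≤ k! N^{-k}`
(at most `N` primes, each term at most `1/N`). By
`Pool.Agent.Helper112.mult_large_sieve` the sum over the conductors `f ≤ x` and primitive `χ` of the
`2k`-th powers is at most `6 ((2N)^k + x²) k! N^{-k} ≤ 12 · 2^k k!`, so at most
`12 · 2^k k! j^{4k}` conductors have a primitive character with block sum `> 1/j²`. As
`j ≥ 20 log₂ log x - 1` and `j ≤ 4 log₂ x + 1`, we have `k ≤ log x/(10 log log x) + 1 + o(..)`,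
`k log k ≤ k log log x ≤ (log x)/10 + ...` and `4 k log j = o(log x)`, so this is at most
`x^{1/5}` for large `x`, and the number of blocks is at most `8 log x`. (A model for this
argument with Jacobi symbols: `Pool.Graph.R_seed8.Y436.SQ.EXC`, lemmas `card_tuples`, `moment`.) -/
def S_A2 : Prop := ∀ ε : ℝ, 0 < ε → ∃ x₀ : ℕ, ∀ x : ℕ, x₀ ≤ x → ∀ z : ℕ,
  Real.log x ^ 20 ≤ z → z ≤ x ^ 4 →
  (((Icc 1 x).filter (fun f => ∃ χ : DirichletCharacter ℂ f, χ.IsPrimitive ∧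
    ε < ‖∑ l ∈ pr z (x ^ 4), χ (l : ZMod f) / l‖)).card : ℝ) ≤ (x : ℝ) ^ (1 / 2 : ℝ)

open scoped Classical in
/-- (TR) truncation: `log |L(1, χ)| ≈ - ∑_{l ≤ z} log |1 - χ(l)/l|`, `z ≥ (log x)^20`, for all
nontrivial characters modulo `p`, for all but few primes `p ≤ x`.

Proof. From (A1), (A2) with `ε' = min(ε,1)/8`: a nontrivial character modulo a prime is
primitive. Outside of the two exceptional sets (at most `x^{1/4} + x^{1/2} ≤ x^{3/4}` elements)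
`|log ‖L(1,χ) ∏_{l ≤ x⁴} (1 - χ(l)/l)‖| ≤ 2 ε'`, and
`|∑_{z < l ≤ x⁴} log ‖1 - χ(l)/l‖| ≤ ‖∑_{z<l≤x⁴} χ(l)/l‖ + ∑_{l > z} 1/l² ≤ ε' + 1/z`, as
`|log ‖1 - w‖ + Re w| ≤ ‖w‖²` for `‖w‖ ≤ 1/2`. (`L(1,χ) ≠ 0` follows as `ε' < 1`.) -/
def S_TR : Prop := ∀ ε : ℝ, 0 < ε → ∃ x₀ : ℕ, ∀ x : ℕ, x₀ ≤ x → ∀ z : ℕ,
  Real.log x ^ 20 ≤ z → z ≤ x ^ 4 →
  (((Icc 3 x).filter (fun p => p.Prime ∧ ∃ (_ : NeZero p) (χ : DirichletCharacter ℂ p), χ ≠ 1 ∧
    ε < |Real.log ‖DirichletCharacter.LFunction χ 1‖ +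
      ∑ l ∈ pr 0 z, Real.log ‖1 - χ (l : ZMod p) / l‖|)).card : ℝ) ≤ (x : ℝ) ^ (3 / 4 : ℝ)

open scoped Classical in
/-- (M) mean square over the characters of order `d` modulo the primes. -/
def S_M (d : ℕ) : Prop := ∃ C : ℝ, 0 < C ∧ ∀ A : ℕ, ∃ x₀ : ℕ, ∀ x : ℕ, x₀ ≤ x →
  ∀ N : Finset ℕ, (∀ n ∈ N, Nat.Coprime n (2 * d) ∧ (n : ℝ) ≤ Real.log x ^ A) →
  (∀ n ∈ N, ∀ n' ∈ N, n ≠ n' → ¬ ∃ b : ℕ, n * n' ^ (d - 1) = b ^ d) →
  ∀ (c : ℕ → ℂ) (χ : (p : ℕ) → DirichletCharacter ℂ p),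
  ∑ p ∈ (Icc 1 x).filter (fun p => p.Prime ∧ orderOf (χ p) = d),
    ‖∑ n ∈ N, c n * χ p (n : ZMod p)‖ ^ 2 ≤ C * (x / Real.log x) * ∑ n ∈ N, ‖c n‖ ^ 2

/-! ### The mean square for quartic characters -/

/-- (SYM) the quartic symbols of odd numbers, with a bound for the modulus.

Proof. Induction over the prime factorisation, as in `Sym_nat` of
`Pool.Graph.R_seed8.Y153.QTN3`: `n = 1`: `Sym_one`. `q ≡ 1 (mod 4)`: `Sym_q1`, `m = 4 q`;
`q ≡ 3 (mod 4)`: `Sym_neg.prod (Sym_q3 _)`, `m = 4 * (4 * q) = 16 q ≤ q ^ 5`; products: `Sym.prod`. -/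
def S_SYM : Prop := ∀ n : ℕ, n % 2 = 1 →
  ∃ (m : ℕ) (ε : GaussianInt → GaussianInt), Sym (n : ℤ) m ε ∧ n ∣ m ∧ m ≤ n ^ 5

/-- (NT) different symbols.

Proof. Let `B = n n'^3`, not a fourth power. There is a prime `p ≡ 1 (mod 4)`, `p ∤ 2 n n'`, with
`B^{(p-1)/4} ≢ 1 (mod p)`: if `B` is not a square, take `p` with `(B/p) = -1`; if `B = b²`, then `b`
is not a square, take `p` with `(b/p) = -1`, as `B^{(p-1)/4} = b^{(p-1)/2}`. (For an odd `b > 0`
which is not a square there is `a` prime to `b` with Jacobi symbol `J(a | b) = -1`; by Dirichlet's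
theorem (`Nat.infinite_setOf_prime_and_eq_mod`/`Nat.setOf_prime_and_eq_mod_infinite`) there are
infinitely many primes `p ≡ 1 (mod 4)`, `p ≡ a (mod b)`; `J(b | p) = J(p | b) = J(a | b) = -1` by
quadratic reciprocity.) Let `α` be a Gaussian integer of norm `p` (`Nat.Prime.sq_add_sq`). By
`Sym.split`, `α ∣ n^{(p-1)/4} - ε α`, `α ∣ n'^{(p-1)/4} - ε' α`; both symbols are nonzero as `p` does not
divide the moduli (`Sym.bad`, `Sym.zero`, `cop_prime`). If `ε α = ε' α` then `α` divides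
`B^{(p-1)/4} - n'^{p-1}`, hence `B^{(p-1)/4} - 1`, an integer, so `p` divides it, a contradiction.
For units, `ε α * star (ε' α) = 1` iff `ε α = ε' α` (`Sym.U`). -/
def S_NT : Prop := ∀ n n' : ℕ, n % 2 = 1 → n' % 2 = 1 → (¬ ∃ b : ℕ, n * n' ^ 3 = b ^ 4) →
  ∀ (m m' : ℕ) (ε ε' : GaussianInt → GaussianInt), Sym (n : ℤ) m ε → Sym (n' : ℤ) m' ε' →
  ∃ α : GaussianInt, ε α * star (ε' α) ≠ 0 ∧ ε α * star (ε' α) ≠ 1

/-- (ZS) complete sums vanish.

Proof. Write `F(α) = [d ∣ N(α)] ε(α) conj ε'(α)` (`N` = norm), periodic modulo `M = m m' d`.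
If a prime `l ∣ d` divides `n n'`, say `l ∣ n ∣ m`, then `l ∣ N(α)` implies that `α` is not coprime
to `m` (`cop_iff`), so `ε α = 0` (`Sym.zero`), and `F = 0`. Otherwise `d` is prime to `m m'`
(`Sym.bad`: the primes dividing `m` divide `2 n`; `d` is odd as the primes in `Sp` are `≥ 5`). Let
`α₀` be given by the hypothesis, and `β ≡ α₀ (mod m m')`, `β ≡ 1 (mod d)` (Chinese remainder theorem
for both coordinates). `β` is coprime to `M` (`α₀` is coprime to `m` and `m'` as the symbols do not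
vanish), so multiplication by `β` permutes the classes modulo `M`; `d ∣ N(β α) ↔ d ∣ N(α)` as
`N(β) ≡ 1 (mod d)`; `F(β α) = ρ F(α)` with `ρ = ε β conj (ε' β) = ε α₀ conj (ε' α₀) ≠ 1`. So the
sum `S` satisfies `S = ρ S`. -/
def S_ZS : Prop := ∀ (n n' m m' : ℕ) (ε ε' : GaussianInt → GaussianInt), n % 2 = 1 → n' % 2 = 1 →
  Sym (n : ℤ) m ε → n ∣ m → Sym (n' : ℤ) m' ε' → n' ∣ m' →
  (∃ α : GaussianInt, ε α * star (ε' α) ≠ 0 ∧ ε α * star (ε' α) ≠ 1) →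
  ∀ d : ℕ, Squarefree d → (∀ p : ℕ, p.Prime → p ∣ d → Sp 0 1 p) →
  ∑ a ∈ range (m * m' * d), ∑ b ∈ range (m * m' * d),
    (if (d : ℤ) ∣ Qf 0 1 a b then GaussianInt.toComplex (ε ⟨a, b⟩) *
      (starRingEnd ℂ) (GaussianInt.toComplex (ε' ⟨a, b⟩)) else 0) = 0

/-- (CNT) the number of zeros of the form modulo `d`.

Proof. Chinese remainder theorem; for one prime `p` in `Sp t c` the form is a product of two
linear forms modulo `p` which are not proportional (`r² - t r + c ≡ 0`, `t² - 4c ≢ 0`: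
`a² + t a b + c b² = (a + r b)(a + (t - r) b)`, `r ≢ t - r`), so there are `2 p - 1` zeros. -/
def S_CNT (t c : ℤ) : Prop := ∀ d : ℕ, Squarefree d → (∀ p : ℕ, p.Prime → p ∣ d → Sp t c p) →
  ((((range d) ×ˢ (range d)).filter (fun v : ℕ × ℕ => (d : ℤ) ∣ Qf t c v.1 v.2)).card : ℝ) =
    (d : ℝ) ^ 2 * gd d

open scoped Classical in
/-- (BOX) the mean square inequality with Selberg's weights.

Proof (from `S_SELB t c`, `S_CNT t c`). Let `λ` be the weights of level `D`,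
`W(v) = (∑_{d ≤ D, d ∣ Qf v} λ_d)²`, which is `1` for `v ∈ P` (only `d = 1` divides). The left side
is at most `∑_{v ∈ box} W(v) ‖∑ c_n f_n(v)‖²
= ∑_{n, n'} c_n conj c_{n'} ∑_{d,e} λ_d λ_e ∑_{v ∈ box, [d,e] ∣ Qf v} f_n(v) conj f_{n'}(v)`.
`n ≠ n'`: the inner sum is over a function with period `M = m_n m_{n'} [d,e] ≤ K² D²` and vanishing
complete sums; with `k = ⌊X/M⌋` the sum over `[0, k M)²` is `0` and the rest of the box has at most
`2 X M` points, so the inner sum is at most `2 X K² D²`, altogether at most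
`2 X K² D⁴ (∑ ‖c_n‖)²`. `n = n'`: at most
`‖c_n‖² ∑_{v ∈ box} W(v) = ‖c_n‖² ∑_{d,e} λ_d λ_e #{v ∈ box : [d,e] ∣ Qf v}`; for `l = [d,e]` (squarefree,
primes in `Sp`, or the weight vanishes) `|#{v ∈ box : l ∣ Qf v} - X² gd(l)| ≤ 3 X l` (periods, as
above; `gd l ≤ 1`), so this is at most `‖c_n‖² (C X²/log D + 3 X D⁴)`. -/
def S_BOX (t c : ℤ) : Prop := ∃ C : ℝ, 0 < C ∧ ∀ (X D K : ℕ), 2 ≤ D → 1 ≤ X → 1 ≤ K →
  ∀ (N : Finset ℕ) (f : ℕ → ℤ → ℤ → ℂ) (m : ℕ → ℕ), (∀ n ∈ N, 0 < m n ∧ m n ≤ K) →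
  (∀ n ∈ N, ∀ a b : ℤ, ‖f n a b‖ ≤ 1) →
  (∀ n ∈ N, ∀ a b : ℤ, f n (a + m n) b = f n a b ∧ f n a (b + m n) = f n a b) →
  (∀ n ∈ N, ∀ n' ∈ N, n ≠ n' → ∀ d : ℕ, Squarefree d → (∀ p : ℕ, p.Prime → p ∣ d → Sp t c p) →
    ∑ a ∈ range (m n * m n' * d), ∑ b ∈ range (m n * m n' * d),
      (if (d : ℤ) ∣ Qf t c a b then f n a b * (starRingEnd ℂ) (f n' a b) else 0) = 0) →
  ∀ (c' : ℕ → ℂ) (P : Finset (ℕ × ℕ)), P ⊆ range X ×ˢ range X →
  (∀ v ∈ P, ∀ e : ℕ, 1 < e → e ≤ D → ¬ (e : ℤ) ∣ Qf t c v.1 v.2) →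
  ∑ v ∈ P, ‖∑ n ∈ N, c' n * f n v.1 v.2‖ ^ 2 ≤
    (C * X ^ 2 / Real.log D + 4 * X * D ^ 4) * ∑ n ∈ N, ‖c' n‖ ^ 2 +
      4 * X * K ^ 2 * D ^ 4 * (∑ n ∈ N, ‖c' n‖) ^ 2

/-- (CHI) characters of order four come from Gaussian integers.

Proof. `p = a² + b²` (`Nat.Prime.sq_add_sq`), `α = a + b i`; with `φ` from `exists_red` (file
`Pool.Graph.R_seed8.Y153.QN3.Chi`) the character `chi φ` has values in `ℤ[i]`, and its image in `ℂ` is
a Dirichlet character `ψ` of order four (`chi_four`, `chi_sq_ne_one`). The group of Dirichlet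
characters modulo `p` is cyclic of order `p - 1`, so there are two elements of order four, `ψ` and
`ψ⁻¹ = conj ψ`, and `χ` is one of them. For `p ∤ n`: `chi φ n = ε α` by `Sym.split` and
`split_iff` (`p ∤ 2n`), so `ψ n = toComplex (ε ⟨a, b⟩)`; if `χ = conj ψ` use `⟨b, a⟩ = i * star ⟨a, b⟩` with
`Sym.mul`, `Sym.unit`, `Sym.star`. For `p ∣ n`: `χ n = 0`, and `p ∣ n ∣ m` so `⟨a, b⟩` (a divisor of `p`, not
a unit) is not coprime to `m`, `ε ⟨a, b⟩ = 0` by `Sym.zero`. -/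
def S_CHI : Prop := ∀ p : ℕ, p.Prime → p % 4 = 1 → ∀ χ : DirichletCharacter ℂ p, orderOf χ = 4 →
  ∃ a b : ℕ, a ^ 2 + b ^ 2 = p ∧ ∀ (n m : ℕ) (ε : GaussianInt → GaussianInt), n % 2 = 1 →
    Sym (n : ℤ) m ε → n ∣ m → χ (n : ZMod p) = GaussianInt.toComplex (ε ⟨a, b⟩)

/-- (M4) Proof of `S_M 4` from the statements: for `n ∈ N` choose `m n`, `ε n` by `S_SYM` and put
`f n a b = toComplex (ε n ⟨a, b⟩)`, norm at most one (`Sym.U`), periodic (`Sym.per`);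
`K = ⌊(log x)^(5 A)⌋₊ + 1`, `D = ⌊x^(1/20)⌋₊`, `X = ⌊√x⌋ + 1` (`Nat.sqrt x + 1`).
Off the diagonal the complete sums vanish by `S_NT`, `S_ZS`. For a prime `D < p ≤ x` with
`orderOf (χ p) = 4` (so `p ≡ 1 (mod 4)`, as the order divides `p - 1`) let `(a_p, b_p)` be given by
`S_CHI`; `p ↦ (a_p, b_p)` is injective with values in the box; `P` is the image. A number `1 < e ≤ D`
does not divide `p`. The primes `p ≤ D` contribute at most `D (∑ ‖c_n‖)²`, and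
`(∑ ‖c_n‖)² ≤ |N| ∑ ‖c_n‖² ≤ ((log x)^A + 1) ∑ ‖c_n‖²`. Altogether at most
`(C X² 20·2/ log x + 4 X D⁴ + (D + 4 X K² D⁴) ((log x)^A + 1)) ∑ ‖c_n‖²`, which is at most
`(C' x/log x) ∑ ‖c_n‖²` for large `x` since `X D⁴ ≤ 2 x^(7/10)`, with `C'` independent of `A`. -/
def S_M4 : Prop := S_SYM → S_NT → S_ZS → S_BOX 0 1 → S_CHI → S_M 4

/-! ### The conclusion -/

open scoped Classical in
/-- the exceptional primes -/
noncomputable def BadP (d x : ℕ) : Finset ℕ := (Icc 1 x).filter (fun p => p.Prime ∧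
  p % (2 * d) = d + 1 ∧ ((p : ℤ) ∣ (bernoulli ((p - 1) / d + 1)).num ∨
    (p : ℤ) ∣ (bernoulli ((d - 1) * ((p - 1) / d) + 1)).num))

/-- (FIN) almost all primes `p ≡ d + 1 (mod 2d)` are good. -/
def S_FIN (d : ℕ) : Prop :=
  Tendsto (fun x : ℕ => ((BadP d x).card : ℝ) / (Nat.primeCounting x : ℝ)) atTop (nhds 0)

end Pool.Agent.H577.QR
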