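import Pool.Agent.H577.QR.Fin
import Pool.Agent.H577.QR.P.E1
import Pool.Agent.H577.QR.P.E2
import Pool.Agent.H577.QR.P.LAC
import Pool.Agent.H577.QR.P.A1
import Pool.Agent.H577.QR.P.A2
import Pool.Agent.H577.QR.P.TR
import Pool.Agent.H577.QR.P.SYM
import Pool.Agent.H577.QR.P.NT
import Pool.Agent.H577.QR.P.ZS
import Pool.Agent.H577.QR.P.CNT
import Pool.Agent.H577.QR.P.BOX
import Pool.Agent.H577.QR.P.CHI
import Pool.Agent.H577.QR.P.M4
import Pool.Agent.H577.QR.P.PAT
import Pool.Agent.H577.QR.P.TAIL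
import Pool.Agent.H577.QR.P.CMB

/-!
# Project QR (helper577): assembly
-/

set_option autoImplicit false

namespace Pool.Agent.H577.QR

theorem box_four : S_BOX 0 1 :=
  Pool.Agent.H657.QR577.box (Pool.Agent.W109.GA.selb (by norm_num)) (Pool.Agent.H183.QR577.cnt 0 1)

theorem m_four : S_M 4 :=
  Pool.Agent.H996.QR577.m4 Pool.Agent.H155.QR577.sym Pool.Agent.H539.QR577.nt
    Pool.Agent.H685.QR577.zs box_four Pool.Agent.H376.QR577.chi4

theorem tr_all : S_TR := Pool.Agent.H34.QR577.TR.tr Pool.Agent.H650.QR577.a1 Pool.Agent.H603.QR577.a2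

theorem fin_four : S_FIN 4 :=
  fin (by norm_num) tr_all Pool.Agent.H870.QR577.e1_four Pool.Agent.H591.QR577.e2
    Pool.Agent.H253.QR577.lac (Pool.Agent.H685.QR577.pat (by norm_num) m_four)
    (Pool.Agent.H221.QR577.tail (by norm_num) m_four) Pool.Agent.H722.QR577.cmb

end Pool.Agent.H577.QR

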