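import Pool.Agent.H577.QR.Stm2

/-!
# Project QR (helper577): the conclusion
-/

set_option autoImplicit false

namespace Pool.Agent.H577.QR

open Finset Filter

lemma log_one_sub (w : ℂ) (h : ‖w‖ ≤ 1 / 2) : |Real.log ‖1 - w‖ + w.re| ≤ ‖w‖ ^ 2 := by
  have h1 : ‖-w‖ < 1 := by rw [norm_neg]; linarith
  have h3 := Complex.norm_log_one_add_sub_self_le h1
  have h2 : Real.log ‖1 - w‖ + w.re = (Complex.log (1 + (-w)) - (-w)).re := by
    rw [Complex.sub_re, Complex.log_re, Complex.neg_re, ← sub_eq_add_neg]; ring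
  rw [h2]
  refine (Complex.abs_re_le_norm _).trans (h3.trans ?_)
  rw [norm_neg]
  have h4 : (1 - ‖w‖)⁻¹ ≤ 2 := by
    rw [inv_le_comm₀ (by linarith) (by norm_num)]; linarith
  have h5 : 0 ≤ ‖w‖ ^ 2 := sq_nonneg _
  nlinarith

lemma log_one_sub_div (v : ℂ) (hv : ‖v‖ ≤ 1) (l : ℕ) (hl : 2 ≤ l) :
    |Real.log ‖1 - v / l‖ + (v / l).re| ≤ ((l : ℝ) ^ 2)⁻¹ := by
  have hl' : (2 : ℝ) ≤ l := by exact_mod_cast hl
  have h0 : ‖v / l‖ ≤ 1 / l := by
    rw [norm_div, Complex.norm_natCast]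
    gcongr
  have h1 : (1 : ℝ) / l ≤ 1 / 2 := by gcongr
  refine (log_one_sub _ (h0.trans h1)).trans ?_
  calc ‖v / l‖ ^ 2 ≤ (1 / l) ^ 2 := by gcongr
    _ = ((l : ℝ) ^ 2)⁻¹ := by rw [one_div, inv_pow]

lemma abs_log_one_sub_div (v : ℂ) (hv : ‖v‖ ≤ 1) (l : ℕ) (hl : 3 ≤ l) :
    |Real.log ‖1 - v / l‖| ≤ 1 := by
  have hl' : (3 : ℝ) ≤ l := by exact_mod_cast hl
  have h1 := log_one_sub_div v hv l (by omega)
  have h0 : ‖v / l‖ ≤ 1 / l := by
    rw [norm_div, Complex.norm_natCast]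
    gcongr
  have h2 : |(v / l).re| ≤ 1 / l := (Complex.abs_re_le_norm _).trans h0
  have h3 : (1 : ℝ) / l ≤ 1 / 3 := by gcongr
  have h4 : ((l : ℝ) ^ 2)⁻¹ ≤ 1 / 9 := by
    rw [← one_div]
    have : (9 : ℝ) ≤ (l : ℝ) ^ 2 := by nlinarith
    gcongr
  rw [abs_le] at *
  constructor <;> linarith [h1.1, h1.2, h2.1, h2.2]

lemma mem_pr {y z l : ℕ} : l ∈ pr y z ↔ (y < l ∧ l ≤ z) ∧ l.Prime := by
  simp [pr]

lemma mem_pq {d y z l : ℕ} : l ∈ pq d y z ↔ ((y < l ∧ l ≤ z) ∧ l.Prime) ∧ ¬ l ∣ 2 * d := by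
  simp [pq, mem_pr]

lemma sum_inv_sq (d y z : ℕ) : ∑ l ∈ pq d y z, ((l : ℝ) ^ 2)⁻¹ ≤ 2 / (y + 1) := by
  refine le_trans ?_ (sum_Ioo_inv_sq_le y (z + 1))
  refine Finset.sum_le_sum_of_subset_of_nonneg ?_ (fun i _ _ => by positivity)
  intro l hl
  rw [mem_pq] at hl
  rw [mem_Ioo]; omega

lemma sum_log (d y z : ℕ) (v : ℕ → ℂ) (hv : ∀ l, ‖v l‖ ≤ 1) :
    |∑ l ∈ pq d y z, Real.log ‖1 - v l / l‖ + (∑ l ∈ pq d y z, v l / l).re| ≤ 2 / (y + 1) := by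
  rw [Complex.re_sum, ← Finset.sum_add_distrib]
  refine (Finset.abs_sum_le_sum_abs _ _).trans (le_trans (Finset.sum_le_sum ?_) (sum_inv_sq d y z))
  intro l hl
  rw [mem_pq] at hl
  exact log_one_sub_div _ (hv l) l hl.1.2.two_le

lemma sum_log_le (d y z : ℕ) (v : ℕ → ℂ) (hv : ∀ l, ‖v l‖ ≤ 1) :
    |∑ l ∈ pq d y z, Real.log ‖1 - v l / l‖| ≤ ‖∑ l ∈ pq d y z, v l / l‖ + 2 / (y + 1) := by
  have h1 := sum_log d y z v hv
  have h2 := Complex.abs_re_le_norm (∑ l ∈ pq d y z, v l / l)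
  rw [abs_le] at *
  constructor <;> linarith [h1.1, h1.2, h2.1, h2.2]

/-- the odd primes dividing `d` -/
def SP (d : ℕ) : Finset ℕ := d.primeFactors.erase 2

/-- splitting of the primes -/
lemma sum_split (d y z : ℕ) (hd : 2 ≤ d) (hd2 : 2 * d ≤ y) (hyz : y ≤ z) (g : ℕ → ℝ) :
    ∑ l ∈ pr 0 z, g l = g 2 + ∑ l ∈ SP d, g l + ∑ l ∈ pq d 0 z, g l := by
  have h : pr 0 z = ({2} ∪ SP d) ∪ pq d 0 z := by
    ext l
    simp only [mem_pr, mem_union, mem_singleton, SP, mem_erase, Nat.mem_primeFactors, mem_pq]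
    constructor
    · rintro ⟨⟨h0, h1⟩, h2⟩
      by_cases h3 : l = 2
      · exact Or.inl (Or.inl h3)
      by_cases h4 : l ∣ d
      · exact Or.inl (Or.inr ⟨h3, h2, h4, by omega⟩)
      · refine Or.inr ⟨⟨⟨h0, h1⟩, h2⟩, ?_⟩
        intro h5
        rcases (Nat.Prime.dvd_mul h2).1 h5 with h6 | h6
        · exact h3 ((Nat.prime_dvd_prime_iff_eq h2 Nat.prime_two).1 h6)
        · exact h4 h6
    · rintro ((h1 | ⟨h1, h2, h3, h4⟩) | h1)
      · subst h1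
        exact ⟨⟨by norm_num, by omega⟩, Nat.prime_two⟩
      · exact ⟨⟨h2.pos, (Nat.le_of_dvd (by omega) h3).trans (by omega)⟩, h2⟩
      · exact h1.1
  rw [h, Finset.sum_union, Finset.sum_union, Finset.sum_singleton]
  · rw [Finset.disjoint_singleton_left]
    simp [SP]
  · rw [Finset.disjoint_left]
    intro l hl hl2
    rw [mem_pq] at hl2
    rw [mem_union, mem_singleton] at hl
    rcases hl with hl | hl
    · subst hl
      exact hl2.2 (Dvd.intro _ rfl)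
    · simp only [SP, mem_erase, Nat.mem_primeFactors] at hl
      exact hl2.2 (hl.2.2.1.mul_left 2)

lemma sum_split2 (d y z : ℕ) (hyz : y ≤ z) (g : ℕ → ℝ) :
    ∑ l ∈ pq d 0 z, g l = ∑ l ∈ pq d 0 y, g l + ∑ l ∈ pq d y z, g l := by
  have h : pq d 0 z = pq d 0 y ∪ pq d y z := by
    ext l
    simp only [mem_union, mem_pq]
    constructor
    · rintro ⟨⟨⟨h0, h1⟩, h2⟩, h3⟩
      by_cases h4 : l ≤ y
      · exact Or.inl ⟨⟨⟨h0, h4⟩, h2⟩, h3⟩
      · exact Or.inr ⟨⟨⟨by omega, h1⟩, h2⟩, h3⟩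
    · rintro (⟨⟨⟨h0, h1⟩, h2⟩, h3⟩ | ⟨⟨⟨h0, h1⟩, h2⟩, h3⟩)
      · exact ⟨⟨⟨h0, h1.trans hyz⟩, h2⟩, h3⟩
      · exact ⟨⟨⟨by omega, h1⟩, h2⟩, h3⟩
  rw [h, Finset.sum_union]
  rw [Finset.disjoint_left]
  intro l hl hl2
  rw [mem_pq] at hl hl2
  omega

/-- the values of a character of order `d` -/
lemma chi_pow (d p : ℕ) (hp : p.Prime) (χ : DirichletCharacter ℂ p) (h : orderOf χ = d) (l : ℕ)
    (hl : l.Prime) (hlp : l < p) : (χ (l : ZMod p)) ^ d = 1 := by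
  have hu : IsUnit ((l : ℕ) : ZMod p) := by
    rw [ZMod.isUnit_iff_coprime]
    exact ((Nat.coprime_primes hl hp).2 (by omega))
  have h1 : (χ ^ d) (l : ZMod p) = 1 := by
    rw [← h, pow_orderOf_eq_one]
    exact MulChar.one_apply hu
  rw [← h1]
  have := MulChar.pow_apply_coe χ d hu.unit
  rw [IsUnit.unit_spec] at this
  exact this.symm

lemma root_form (d : ℕ) (hd : 0 < d) (w : ℂ) (h : w ^ d = 1) :
    ∃ u : Fin d, w = Complex.exp (2 * Real.pi * Complex.I * ((u : ℕ) : ℂ) / d) := by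
  have : NeZero d := ⟨by omega⟩
  obtain ⟨i, hi, h1⟩ := (Complex.isPrimitiveRoot_exp d (by omega)).eq_pow_of_pow_eq_one h
  refine ⟨⟨i, hi⟩, ?_⟩
  rw [← h1, ← Complex.exp_nat_mul]
  congr 1
  ring

lemma key (p : ℕ) [NeZero p] (hp : p.Prime) (hp2 : 2 < p) (χ : DirichletCharacter ℂ p)
    (ho : χ.Odd) (h1 : χ ≠ 1) (hE2 : S_E2) (m : ℕ) (hm : ‖SH χ‖ ^ 2 = m * p) :
    1 ≤ m ∧ Real.log ‖DirichletCharacter.LFunction χ 1‖ +
      Real.log ‖1 - χ ((2 : ℕ) : ZMod p) / (2 : ℕ)‖ = Real.log m / 2 + Real.log (Real.pi / 2) := by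
  have hL : 0 < ‖DirichletCharacter.LFunction χ 1‖ :=
    norm_pos_iff.2 (DirichletCharacter.LFunction_apply_one_ne_zero h1)
  have hp0 : (0 : ℝ) < p := by exact_mod_cast hp.pos
  have hpi := Real.pi_pos
  have hE := hE2 p hp hp2 χ ho
  have h2 : ‖1 - χ ((2 : ℕ) : ZMod p) / (2 : ℕ)‖ = ‖2 - χ ((2 : ℕ) : ZMod p)‖ / 2 := by
    have : (1 : ℂ) - χ ((2 : ℕ) : ZMod p) / (2 : ℕ) = (2 - χ ((2 : ℕ) : ZMod p)) / 2 := by
      push_cast; ring
    rw [this, norm_div]; norm_num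
  have h3 : 1 ≤ ‖2 - χ ((2 : ℕ) : ZMod p)‖ := by
    have h4 := norm_sub_norm_le (2 : ℂ) (χ ((2 : ℕ) : ZMod p))
    have h5 := DirichletCharacter.norm_le_one χ ((2 : ℕ) : ZMod p)
    have h6 : ‖(2 : ℂ)‖ = 2 := by norm_num
    linarith
  set A := ‖2 - χ ((2 : ℕ) : ZMod p)‖ with hA
  set L := ‖DirichletCharacter.LFunction χ 1‖ with hLL
  have h4 : (m : ℝ) * (Real.pi / 2) ^ 2 = (L * (A / 2)) ^ 2 := by
    have h5 : (p : ℝ) * ((m : ℝ) * (Real.pi / 2) ^ 2) = p * (L * (A / 2)) ^ 2 := by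
      rw [hm] at hE
      linear_combination (1 / 4 : ℝ) * hE
    exact mul_left_cancel₀ hp0.ne' h5
  have hLA : 0 < L * (A / 2) := by positivity
  have hm1 : 1 ≤ m := by
    by_contra h
    have h0 : m = 0 := by omega
    rw [h0, Nat.cast_zero, zero_mul] at h4
    have : 0 < (L * (A / 2)) ^ 2 := by positivity
    linarith
  refine ⟨hm1, ?_⟩
  rw [h2, ← Real.log_mul hL.ne' (by positivity)]
  have h5 := congrArg Real.log h4
  have hm0 : (0 : ℝ) < m := by exact_mod_cast hm1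
  rw [Real.log_mul hm0.ne' (by positivity), Real.log_pow, Real.log_pow] at h5
  push_cast at h5
  linarith

lemma eventually_large (y : ℕ) (δ : ℝ) (hδ : 0 < δ) : ∃ x₀ : ℕ, ∀ x : ℕ, x₀ ≤ x →
    ((y : ℝ) + 1 + (x : ℝ) ^ (3 / 4 : ℝ) ≤ δ * (x / Real.log x)) ∧
    ∃ z : ℕ, Real.log x ^ 20 ≤ z ∧ z ≤ x ^ 4 ∧ (z : ℝ) ≤ Real.log x ^ 21 ∧ y ≤ z := by
  have hlog : Tendsto (fun x : ℕ => Real.log (x : ℝ)) atTop atTop :=
    Real.tendsto_log_atTop.comp tendsto_natCast_atTop_atTop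
  have e1 : ∀ᶠ x : ℕ in atTop, Real.log (x : ℝ) ^ 21 ≤ (x : ℝ) := by
    have h1 := (isLittleO_log_rpow_rpow_atTop (s := 1) 21 (by norm_num)).comp_tendsto
      (tendsto_natCast_atTop_atTop (R := ℝ))
    have h2 := h1.bound (c := 1) (by norm_num)
    filter_upwards [h2, eventually_ge_atTop 3] with x hx hx3
    have hx1 : (1 : ℝ) ≤ x := by exact_mod_cast (by omega : 1 ≤ x)
    have hl0 : 0 ≤ Real.log (x : ℝ) := Real.log_nonneg hx1
    simp only [Function.comp_apply, Real.rpow_one, Real.norm_eq_abs, one_mul] at hx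
    rw [abs_of_nonneg (Real.rpow_nonneg hl0 _), abs_of_nonneg (by linarith : (0 : ℝ) ≤ x)] at hx
    have : Real.log (x : ℝ) ^ (21 : ℝ) = Real.log (x : ℝ) ^ 21 := by
      exact_mod_cast Real.rpow_natCast (Real.log (x : ℝ)) 21
    rwa [this] at hx
  have e2 : ∀ᶠ x : ℕ in atTop, ((y : ℝ) + 1 + (x : ℝ) ^ (3 / 4 : ℝ) ≤ δ * (x / Real.log x)) := by
    have h1 := (isLittleO_log_rpow_rpow_atTop (s := 1 / 8) 1 (by norm_num)).comp_tendsto
      (tendsto_natCast_atTop_atTop (R := ℝ))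
    have h2 := h1.bound (c := 1) (by norm_num)
    have h3 : Tendsto (fun x : ℕ => (x : ℝ) ^ (1 / 8 : ℝ)) atTop atTop :=
      (tendsto_rpow_atTop (by norm_num)).comp tendsto_natCast_atTop_atTop
    filter_upwards [h2, eventually_ge_atTop 3, h3.eventually_ge_atTop (((y : ℝ) + 2) / δ)]
      with x hx hx3 hx4
    have hx1 : (1 : ℝ) ≤ x := by exact_mod_cast (by omega : 1 ≤ x)
    have hx31 : (3 : ℝ) ≤ x := by exact_mod_cast hx3
    have hl0 : 0 < Real.log (x : ℝ) := Real.log_pos (by linarith)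
    simp only [Function.comp_apply, Real.rpow_one, Real.norm_eq_abs, one_mul] at hx
    rw [abs_of_nonneg hl0.le, abs_of_nonneg (by positivity)] at hx
    have hx0 : (0 : ℝ) < x := by linarith
    have h5 : (x : ℝ) ^ (7 / 8 : ℝ) ≤ x / Real.log x := by
      rw [le_div_iff₀ hl0]
      calc (x : ℝ) ^ (7 / 8 : ℝ) * Real.log x ≤ (x : ℝ) ^ (7 / 8 : ℝ) * (x : ℝ) ^ (1 / 8 : ℝ) := by
            gcongr
        _ = (x : ℝ) := by rw [← Real.rpow_add hx0]; norm_num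
    have h6 : (y : ℝ) + 1 + (x : ℝ) ^ (3 / 4 : ℝ) ≤ ((y : ℝ) + 2) * (x : ℝ) ^ (3 / 4 : ℝ) := by
      have : (1 : ℝ) ≤ (x : ℝ) ^ (3 / 4 : ℝ) := Real.one_le_rpow hx1 (by norm_num)
      nlinarith [(Nat.cast_nonneg y : (0 : ℝ) ≤ y)]
    have h7 : ((y : ℝ) + 2) ≤ δ * (x : ℝ) ^ (1 / 8 : ℝ) := by
      rw [div_le_iff₀ hδ] at hx4; linarith
    have h8 : (x : ℝ) ^ (7 / 8 : ℝ) = (x : ℝ) ^ (1 / 8 : ℝ) * (x : ℝ) ^ (3 / 4 : ℝ) := by
      rw [← Real.rpow_add hx0]; norm_num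
    calc (y : ℝ) + 1 + (x : ℝ) ^ (3 / 4 : ℝ) ≤ ((y : ℝ) + 2) * (x : ℝ) ^ (3 / 4 : ℝ) := h6
      _ ≤ (δ * (x : ℝ) ^ (1 / 8 : ℝ)) * (x : ℝ) ^ (3 / 4 : ℝ) := by gcongr
      _ = δ * (x : ℝ) ^ (7 / 8 : ℝ) := by rw [h8]; ring
      _ ≤ δ * (x / Real.log x) := by gcongr
  have e3 : ∀ᶠ x : ℕ in atTop, (y : ℝ) + 2 ≤ Real.log (x : ℝ) := hlog.eventually_ge_atTop _
  obtain ⟨x₀, h⟩ := eventually_atTop.1 (((e1.and e2).and e3).and (eventually_ge_atTop 1))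
  refine ⟨x₀, fun x hx => ?_⟩
  obtain ⟨⟨⟨h1, h2⟩, h3⟩, h4⟩ := h x hx
  refine ⟨h2, ⌈Real.log x ^ 20⌉₊, Nat.le_ceil _, ?_, ?_, ?_⟩
  · have hy0 : (0 : ℝ) ≤ y := Nat.cast_nonneg y
    have h5 : Real.log (x : ℝ) ^ 20 ≤ Real.log (x : ℝ) ^ 21 :=
      pow_le_pow_right₀ (by linarith) (by norm_num)
    have h6 : ⌈Real.log x ^ 20⌉₊ ≤ x := Nat.ceil_le.2 (h5.trans h1)
    exact h6.trans (Nat.le_self_pow (by norm_num) x)
  · have hy0 : (0 : ℝ) ≤ y := Nat.cast_nonneg y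
    have hl2 : (2 : ℝ) ≤ Real.log x := by linarith
    have h5 := (Nat.ceil_lt_add_one (pow_nonneg (by linarith : (0 : ℝ) ≤ Real.log x) 20)).le
    have h6 : (1 : ℝ) ≤ Real.log x ^ 20 := one_le_pow₀ (by linarith)
    calc ((⌈Real.log x ^ 20⌉₊ : ℕ) : ℝ) ≤ Real.log x ^ 20 + 1 := h5
      _ ≤ Real.log x ^ 20 * 2 := by linarith
      _ ≤ Real.log x ^ 20 * Real.log x := by gcongr
      _ = Real.log x ^ 21 := by ring
  · have hy0 : (0 : ℝ) ≤ y := Nat.cast_nonneg y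
    have h5 := Nat.le_ceil (Real.log (x : ℝ) ^ 20)
    have h6 : Real.log (x : ℝ) ≤ Real.log (x : ℝ) ^ 20 :=
      le_self_pow₀ (by linarith) (by norm_num)
    have h7 : (y : ℝ) ≤ ((⌈Real.log x ^ 20⌉₊ : ℕ) : ℝ) := by linarith
    exact_mod_cast h7

/-- the function with the given values -/
noncomputable def wu (d : ℕ) (Q : Finset ℕ) (u : Q → Fin d) (l : ℕ) : ℂ :=
  if h : l ∈ Q then Complex.exp (2 * Real.pi * Complex.I * (((u ⟨l, h⟩ : Fin d) : ℕ) : ℂ) / d) else 1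

lemma exp_root (d : ℕ) (hd : 0 < d) (j : ℕ) :
    Complex.exp (2 * Real.pi * Complex.I * ((j : ℕ) : ℂ) / d) ^ d = 1 := by
  rw [← Complex.exp_nat_mul]
  have hd' : (d : ℂ) ≠ 0 := by exact_mod_cast (by omega : d ≠ 0)
  rw [show (d : ℂ) * (2 * Real.pi * Complex.I * (j : ℂ) / d) = (j : ℂ) * (2 * Real.pi * Complex.I) by
    field_simp]
  exact Complex.exp_nat_mul_two_pi_mul_I j

lemma wu_pow (d : ℕ) (hd : 0 < d) (Q : Finset ℕ) (u : Q → Fin d) (l : ℕ) : wu d Q u l ^ d = 1 := by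
  unfold wu
  split_ifs with h
  · exact exp_root d hd _
  · exact one_pow d

open scoped Classical in
/-- the union bound -/
lemma union_bound {d : ℕ} (hd : 0 < d) (hCMB : S_CMB) (Q T : Finset ℕ) (hTQ : T ⊆ Q) (γ : ℝ)
    (hγ : 0 < γ) (hT3 : ∀ w w' : ℕ → ℂ, (∀ l ∈ T, w l ^ d = 1 ∧ w' l ^ d = 1) →
      |∑ l ∈ T, Real.log ‖1 - w l / l‖ - ∑ l ∈ T, Real.log ‖1 - w' l / l‖| ≤ γ →
      ∀ l ∈ T, (w l).re = (w' l).re) (x : ℕ) (B : ℝ) (hB : 0 ≤ B)
    (χ : (p : ℕ) → DirichletCharacter ℂ p)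
    (hPAT : ∀ w : ℕ → ℂ, (∀ l ∈ Q, w l ^ d = 1) →
      (((Icc 1 x).filter (fun p => p.Prime ∧ orderOf (χ p) = d ∧
        ∀ l ∈ Q, χ p (l : ZMod p) = w l)).card : ℝ) ≤ B)
    {ι : Type} (I : Finset ι) (center : ι → ℝ) (S : Finset ℕ)
    (hS : ∀ p ∈ S, p ∈ Icc 1 x ∧ p.Prime ∧ orderOf (χ p) = d ∧ ∃ i ∈ I, ∃ u : Q → Fin d,
      |∑ l : Q, Real.log ‖1 - Complex.exp (2 * Real.pi * Complex.I * ((u l : ℕ) : ℂ) / d) /
        ((l : ℕ) : ℂ)‖ - center i| ≤ γ / 2 ∧ ∀ l : Q, χ p ((l : ℕ) : ZMod p) =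
          Complex.exp (2 * Real.pi * Complex.I * ((u l : ℕ) : ℂ) / d)) :
    (S.card : ℝ) ≤ I.card * (2 ^ T.card * (d : ℝ) ^ (Q.card - T.card)) * B := by
  have h1 : S ⊆ I.biUnion (fun i => ((univ : Finset (Q → Fin d)).filter (fun u => |∑ l : Q,
      Real.log ‖1 - Complex.exp (2 * Real.pi * Complex.I * ((u l : ℕ) : ℂ) / d) / ((l : ℕ) : ℂ)‖ -
        center i| ≤ γ / 2)).biUnion (fun u => (Icc 1 x).filter (fun p => p.Prime ∧
          orderOf (χ p) = d ∧ ∀ l ∈ Q, χ p (l : ZMod p) = wu d Q u l))) := by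
    intro p hp
    obtain ⟨h1, h2, h3, i, hi, u, hu1, hu2⟩ := hS p hp
    rw [mem_biUnion]
    refine ⟨i, hi, ?_⟩
    rw [mem_biUnion]
    refine ⟨u, ?_, ?_⟩
    · rw [mem_filter]
      exact ⟨mem_univ _, hu1⟩
    · rw [mem_filter]
      refine ⟨h1, h2, h3, fun l hl => ?_⟩
      rw [wu, dif_pos hl]
      exact hu2 ⟨l, hl⟩
  have h2 := (Finset.card_le_card h1).trans Finset.card_biUnion_le
  have h3 : ∀ i ∈ I, ((((univ : Finset (Q → Fin d)).filter (fun u => |∑ l : Q,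
      Real.log ‖1 - Complex.exp (2 * Real.pi * Complex.I * ((u l : ℕ) : ℂ) / d) / ((l : ℕ) : ℂ)‖ -
        center i| ≤ γ / 2)).biUnion (fun u => (Icc 1 x).filter (fun p => p.Prime ∧
          orderOf (χ p) = d ∧ ∀ l ∈ Q, χ p (l : ZMod p) = wu d Q u l))).card : ℝ) ≤
      (2 ^ T.card * (d : ℝ) ^ (Q.card - T.card)) * B := by
    intro i _
    have h4 := Finset.card_biUnion_le (s := (univ : Finset (Q → Fin d)).filter (fun u => |∑ l : Q,
      Real.log ‖1 - Complex.exp (2 * Real.pi * Complex.I * ((u l : ℕ) : ℂ) / d) / ((l : ℕ) : ℂ)‖ -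
        center i| ≤ γ / 2)) (t := fun u => (Icc 1 x).filter (fun p => p.Prime ∧
          orderOf (χ p) = d ∧ ∀ l ∈ Q, χ p (l : ZMod p) = wu d Q u l))
    have h5 : (((univ : Finset (Q → Fin d)).filter (fun u => |∑ l : Q,
      Real.log ‖1 - Complex.exp (2 * Real.pi * Complex.I * ((u l : ℕ) : ℂ) / d) / ((l : ℕ) : ℂ)‖ -
        center i| ≤ γ / 2)).card : ℝ) ≤ 2 ^ T.card * (d : ℝ) ^ (Q.card - T.card) :=
      hCMB d Q T γ (center i) hd hTQ hγ hT3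
    calc _ ≤ ((∑ u ∈ (univ : Finset (Q → Fin d)).filter (fun u => |∑ l : Q,
      Real.log ‖1 - Complex.exp (2 * Real.pi * Complex.I * ((u l : ℕ) : ℂ) / d) / ((l : ℕ) : ℂ)‖ -
        center i| ≤ γ / 2), ((Icc 1 x).filter (fun p => p.Prime ∧
          orderOf (χ p) = d ∧ ∀ l ∈ Q, χ p (l : ZMod p) = wu d Q u l)).card : ℕ) : ℝ) := by
          exact_mod_cast h4
      _ ≤ ∑ u ∈ (univ : Finset (Q → Fin d)).filter (fun u => |∑ l : Q,
      Real.log ‖1 - Complex.exp (2 * Real.pi * Complex.I * ((u l : ℕ) : ℂ) / d) / ((l : ℕ) : ℂ)‖ -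
        center i| ≤ γ / 2), B := by
          push_cast
          exact Finset.sum_le_sum fun u _ => hPAT _ (fun l _ => wu_pow d hd Q u l)
      _ = (((univ : Finset (Q → Fin d)).filter (fun u => |∑ l : Q,
      Real.log ‖1 - Complex.exp (2 * Real.pi * Complex.I * ((u l : ℕ) : ℂ) / d) / ((l : ℕ) : ℂ)‖ -
        center i| ≤ γ / 2)).card : ℝ) * B := by rw [Finset.sum_const, nsmul_eq_mul]
      _ ≤ _ := by gcongr
  calc (S.card : ℝ) ≤ ((∑ i ∈ I, (((univ : Finset (Q → Fin d)).filter (fun u => |∑ l : Q,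
      Real.log ‖1 - Complex.exp (2 * Real.pi * Complex.I * ((u l : ℕ) : ℂ) / d) / ((l : ℕ) : ℂ)‖ -
        center i| ≤ γ / 2)).biUnion (fun u => (Icc 1 x).filter (fun p => p.Prime ∧
          orderOf (χ p) = d ∧ ∀ l ∈ Q, χ p (l : ZMod p) = wu d Q u l))).card : ℕ) : ℝ) := by
        exact_mod_cast h2
    _ ≤ ∑ i ∈ I, (2 ^ T.card * (d : ℝ) ^ (Q.card - T.card)) * B := by
        push_cast
        exact Finset.sum_le_sum h3
    _ = _ := by rw [Finset.sum_const, nsmul_eq_mul]; ring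

theorem fin_aux {d : ℕ} (hd : 2 < d) (hTR : S_TR) (hE1 : S_E1 d) (hE2 : S_E2) (hLAC : S_LAC)
    (hPAT : S_PAT d) (hTAIL : S_TAIL d) (hCMB : S_CMB) (δ : ℝ) (hδ : 0 < δ) :
    ∃ x₀ : ℕ, ∀ x : ℕ, x₀ ≤ x → ((BadP d x).card : ℝ) ≤ 4 * δ * (x / Real.log x) := by
  classical
  have hd0 : 0 < d := by omega
  have hdR : (0 : ℝ) < d := by exact_mod_cast hd0
  -- the characters
  have hch : ∀ p : ℕ, ∃ χ : DirichletCharacter ℂ p, (p.Prime → p % (2 * d) = d + 1 →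
      ((p : ℤ) ∣ (bernoulli ((p - 1) / d + 1)).num ∨
        (p : ℤ) ∣ (bernoulli ((d - 1) * ((p - 1) / d) + 1)).num) →
      orderOf χ = d ∧ χ.Odd ∧ ∃ m : ℕ, ‖SH χ‖ ^ 2 = m * p) := by
    intro p
    by_cases h : p.Prime ∧ p % (2 * d) = d + 1 ∧ ((p : ℤ) ∣ (bernoulli ((p - 1) / d + 1)).num ∨
        (p : ℤ) ∣ (bernoulli ((d - 1) * ((p - 1) / d) + 1)).num)
    · obtain ⟨χ, h1⟩ := hE1 p h.1 h.2.1 h.2.2
      exact ⟨χ, fun _ _ _ => h1⟩
    · exact ⟨1, fun h1 h2 h3 => absurd ⟨h1, h2, h3⟩ h⟩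
  choose χ hχ using hch
  obtain ⟨C₁, hC₁, hPAT⟩ := hPAT
  obtain ⟨C₂, hC₂, x₂, hTAIL⟩ := hTAIL
  -- `K`
  obtain ⟨K, hK0, hK⟩ : ∃ K : ℝ, 0 < K ∧ C₂ / K ^ 2 ≤ δ := by
    refine ⟨max 1 (C₂ / δ), by positivity, ?_⟩
    have h1 : 1 ≤ max 1 (C₂ / δ) := le_max_left _ _
    have h2 : C₂ / δ ≤ max 1 (C₂ / δ) := le_max_right _ _
    rw [div_le_iff₀ (by positivity)]
    rw [div_le_iff₀ hδ] at h2
    nlinarith
  -- `M`
  obtain ⟨M, hM⟩ : ∃ M : ℕ, Real.exp (2 * (K + (SP d).card + 3)) ≤ M := exists_nat_ge _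
  -- `k`
  obtain ⟨k, hk⟩ : ∃ k : ℕ, (((M : ℝ) + 1) * (d : ℝ) ^ (SP d).card) * C₁ * (2 / (d : ℝ)) ^ k ≤ δ := by
    have h1 : (2 : ℝ) / d < 1 := by
      rw [div_lt_one hdR]; exact_mod_cast hd
    obtain ⟨k, hk⟩ := exists_pow_lt_of_lt_one
      (show 0 < δ / ((((M : ℝ) + 1) * (d : ℝ) ^ (SP d).card) * C₁) by positivity) h1
    refine ⟨k, ?_⟩
    rw [lt_div_iff₀ (by positivity)] at hk
    linarith
  obtain ⟨T, hT1, hT2, γ, hγ, hT3⟩ := hLAC d k (2 * d) hd0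
  -- `ε`
  obtain ⟨ε, hε0, hε1, hεγ⟩ : ∃ ε : ℝ, 0 < ε ∧ ε ≤ 1 ∧ ε ≤ γ / 6 :=
    ⟨min (γ / 6) 1, by positivity, min_le_right _ _, min_le_left _ _⟩
  -- `y`
  obtain ⟨y, hy1, hy2, hy3, hy4⟩ : ∃ y : ℕ, 2 * d ≤ y ∧ (∀ l ∈ T, l ≤ y) ∧
      C₂ / (ε ^ 2 * (y + 1)) ≤ δ ∧ (2 : ℝ) / (y + 1) ≤ ε := by
    obtain ⟨y₁, h1⟩ := exists_nat_ge (C₂ / (δ * ε ^ 2))
    obtain ⟨y₂, h2⟩ := exists_nat_ge (2 / ε)
    refine ⟨2 * d + T.sup id + y₁ + y₂, by omega, fun l hl => ?_, ?_, ?_⟩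
    · have := Finset.le_sup (f := id) hl
      simp only [id] at this
      omega
    · rw [div_le_iff₀ (by positivity)]
      rw [div_le_iff₀ (by positivity)] at h1
      push_cast
      have h3 : (0 : ℝ) ≤ T.sup id := Nat.cast_nonneg _
      have h4 : (0 : ℝ) ≤ y₂ := Nat.cast_nonneg _
      calc C₂ ≤ y₁ * (δ * ε ^ 2) := h1
        _ ≤ (2 * d + (T.sup id : ℕ) + y₁ + y₂ + 1) * (δ * ε ^ 2) := by
          gcongr
          linarith
        _ = _ := by ring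
    · rw [div_le_iff₀ (by positivity)]
      rw [div_le_iff₀ hε0] at h2
      push_cast
      have h3 : (0 : ℝ) ≤ T.sup id := Nat.cast_nonneg _
      have h4 : (0 : ℝ) ≤ y₁ := Nat.cast_nonneg _
      calc (2 : ℝ) ≤ y₂ * ε := h2
        _ ≤ (2 * d + (T.sup id : ℕ) + y₁ + y₂ + 1) * ε := by
          gcongr
          linarith
        _ = _ := by ring
  have hTQ : T ⊆ pq d 0 y := by
    intro l hl
    obtain ⟨h1, h2, h3⟩ := hT2 l hl
    rw [mem_pq]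
    refine ⟨⟨⟨h1.pos, hy2 l hl⟩, h1⟩, fun h4 => ?_⟩
    have := Nat.le_of_dvd (by omega) h4
    omega
  obtain ⟨x₁, hx₁⟩ := hPAT (pq d 0 y) (fun l hl => by
    rw [mem_pq] at hl; exact ⟨hl.1.2, hl.2⟩)
  obtain ⟨x₃, hx₃⟩ := hTR ε hε0
  obtain ⟨x₄, hx₄⟩ := eventually_large y δ hδ
  refine ⟨x₁ + x₂ + x₃ + x₄ + 3, fun x hx => ?_⟩
  obtain ⟨hxy, z, hz1, hz2, hz3, hz4⟩ := hx₄ x (by omega)
  have hx3R : (3 : ℝ) ≤ x := by exact_mod_cast (by omega : 3 ≤ x)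
  have hl0 : 0 < Real.log x := Real.log_pos (by linarith)
  -- the exceptional sets
  set E1 := (Icc 3 x).filter (fun p => p.Prime ∧ ∃ (_ : NeZero p) (χ : DirichletCharacter ℂ p),
    χ ≠ 1 ∧ ε < |Real.log ‖DirichletCharacter.LFunction χ 1‖ +
      ∑ l ∈ pr 0 z, Real.log ‖1 - χ (l : ZMod p) / l‖|) with hE1def
  set E2 := (Icc 1 x).filter (fun p => p.Prime ∧ orderOf (χ p) = d ∧
    ε < ‖∑ l ∈ pq d y z, χ p (l : ZMod p) / l‖) with hE2def
  set E3 := (Icc 1 x).filter (fun p => p.Prime ∧ orderOf (χ p) = d ∧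
    K < ‖∑ l ∈ pq d 0 z, χ p (l : ZMod p) / l‖) with hE3def
  have hE1c : (E1.card : ℝ) ≤ (x : ℝ) ^ (3 / 4 : ℝ) := hx₃ x (by omega) z hz1 hz2
  have hE2c : (E2.card : ℝ) ≤ δ * (x / Real.log x) := by
    refine (hTAIL x (by omega) y z hz3 ε hε0 χ).trans ?_
    calc C₂ * (x / Real.log x) / (ε ^ 2 * (y + 1)) = C₂ / (ε ^ 2 * (y + 1)) * (x / Real.log x) := by
          ring
      _ ≤ δ * (x / Real.log x) := by gcongr
  have hE3c : (E3.card : ℝ) ≤ δ * (x / Real.log x) := by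
    refine (hTAIL x (by omega) 0 z hz3 K hK0 χ).trans ?_
    calc C₂ * (x / Real.log x) / (K ^ 2 * ((0 : ℕ) + 1)) = C₂ / K ^ 2 * (x / Real.log x) := by
          push_cast; ring
      _ ≤ δ * (x / Real.log x) := by gcongr
  set R := BadP d x \ ((range (y + 1)) ∪ E1 ∪ E2 ∪ E3) with hRdef
  have hcard : (BadP d x).card ≤ (y + 1) + E1.card + E2.card + E3.card + R.card := by
    have h1 : BadP d x ⊆ ((range (y + 1)) ∪ E1 ∪ E2 ∪ E3) ∪ R := by
      intro p hp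
      by_cases h : p ∈ ((range (y + 1)) ∪ E1 ∪ E2 ∪ E3)
      · exact mem_union_left _ h
      · exact mem_union_right _ (mem_sdiff.2 ⟨hp, h⟩)
    have h2 := Finset.card_le_card h1
    have h3 := Finset.card_union_le ((range (y + 1)) ∪ E1 ∪ E2 ∪ E3) R
    have h4 := Finset.card_union_le ((range (y + 1)) ∪ E1 ∪ E2) E3
    have h5 := Finset.card_union_le ((range (y + 1)) ∪ E1) E2
    have h6 := Finset.card_union_le (range (y + 1)) E1
    rw [card_range] at h6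
    omega
  -- the remaining primes
  set B : ℝ := C₁ * (x / Real.log x) / (d : ℝ) ^ (pq d 0 y).card with hB
  have hRc : (R.card : ℝ) ≤ δ * (x / Real.log x) := by
    have h1 := union_bound (d := d) hd0 hCMB (pq d 0 y) T hTQ γ hγ hT3 x B (by positivity) χ
      (fun w hw => hx₁ x (by omega) w χ hw)
      (I := range (M + 1) ×ˢ (univ : Finset (SP d → Fin d)))
      (center := fun v => -(Real.log (v.1 : ℕ) / 2) - Real.log (Real.pi / 2) -
        ∑ l : SP d, Real.log ‖1 - Complex.exp (2 * Real.pi * Complex.I * ((v.2 l : ℕ) : ℂ) / d) /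
          ((l : ℕ) : ℂ)‖) R ?_
    · refine h1.trans ?_
      rw [card_product, card_range, Finset.card_univ, Fintype.card_fun, Fintype.card_fin,
        Fintype.card_coe, hT1, hB]
      have h2 : k ≤ (pq d 0 y).card := by
        rw [← hT1]; exact Finset.card_le_card hTQ
      have h3 : (d : ℝ) ^ (pq d 0 y).card = (d : ℝ) ^ k * (d : ℝ) ^ ((pq d 0 y).card - k) := by
        rw [← pow_add]; congr 1; omega
      rw [h3]
      push_cast
      calc ((M : ℝ) + 1) * (d : ℝ) ^ (SP d).card * (2 ^ k * (d : ℝ) ^ ((pq d 0 y).card - k)) *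
          (C₁ * (x / Real.log x) / ((d : ℝ) ^ k * (d : ℝ) ^ ((pq d 0 y).card - k)))
          = ((((M : ℝ) + 1) * (d : ℝ) ^ (SP d).card) * C₁ * (2 / (d : ℝ)) ^ k) *
            (x / Real.log x) := by
            rw [div_pow]; field_simp
        _ ≤ δ * (x / Real.log x) := by gcongr
    · -- the structure of the remaining primes
      intro p hp
      rw [hRdef, Finset.mem_sdiff] at hp
      obtain ⟨hp, hpn⟩ := hp
      simp only [mem_union, not_or, mem_range, not_lt] at hpn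
      obtain ⟨⟨⟨hpy, hp1⟩, hp2⟩, hp3⟩ := hpn
      unfold BadP at hp
      rw [mem_filter] at hp
      obtain ⟨hpx, hpp, hpd, hpB⟩ := hp
      obtain ⟨hord, hodd, m, hm⟩ := hχ p hpp hpd hpB
      refine ⟨hpx, hpp, hord, ?_⟩
      have hpn : NeZero p := ⟨hpp.ne_zero⟩
      have hp6 : 3 ≤ p := by omega
      have hne : χ p ≠ 1 := by
        intro h
        rw [h, orderOf_one] at hord
        omega
      rw [mem_Icc] at hpx
      have hp1' : |Real.log ‖DirichletCharacter.LFunction (χ p) 1‖ +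
          ∑ l ∈ pr 0 z, Real.log ‖1 - χ p (l : ZMod p) / l‖| ≤ ε := by
        by_contra h
        rw [not_le] at h
        apply hp1
        rw [hE1def, mem_filter, mem_Icc]
        exact ⟨⟨hp6, hpx.2⟩, hpp, hpn, χ p, hne, h⟩
      have hp2' : ‖∑ l ∈ pq d y z, χ p (l : ZMod p) / l‖ ≤ ε := by
        by_contra h
        rw [not_le] at h
        apply hp2
        rw [hE2def, mem_filter, mem_Icc]
        exact ⟨hpx, hpp, hord, h⟩
      have hp3' : ‖∑ l ∈ pq d 0 z, χ p (l : ZMod p) / l‖ ≤ K := by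
        by_contra h
        rw [not_le] at h
        apply hp3
        rw [hE3def, mem_filter, mem_Icc]
        exact ⟨hpx, hpp, hord, h⟩
      obtain ⟨hm1, hkey⟩ := key p hpp (by omega) (χ p) hodd hne hE2 m hm
      have hs1 := sum_split d y z (by omega) hy1 hz4
        (fun l => Real.log ‖1 - χ p (l : ZMod p) / l‖)
      have hs2 := sum_split2 d y z hz4 (fun l => Real.log ‖1 - χ p (l : ZMod p) / l‖)
      beta_reduce at hs1 hs2
      have hv : ∀ l : ℕ, ‖χ p (l : ZMod p)‖ ≤ 1 := fun l => DirichletCharacter.norm_le_one _ _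
      have hs3 := sum_log_le d y z (fun l => χ p (l : ZMod p)) hv
      have hs4 := sum_log_le d 0 z (fun l => χ p (l : ZMod p)) hv
      beta_reduce at hs3 hs4
      have hs5 : |∑ l ∈ SP d, Real.log ‖1 - χ p (l : ZMod p) / l‖| ≤ (SP d).card := by
        refine (Finset.abs_sum_le_sum_abs _ _).trans ?_
        rw [← nsmul_one, ← Finset.sum_const]
        refine Finset.sum_le_sum fun l hl => ?_
        simp only [SP, mem_erase, Nat.mem_primeFactors] at hl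
        have := hl.2.1.two_le
        exact abs_log_one_sub_div _ (hv l) l (by omega)
      have hroot : ∀ l : ℕ, l.Prime → l ≤ y → ∃ u : Fin d, χ p (l : ZMod p) =
          Complex.exp (2 * Real.pi * Complex.I * ((u : ℕ) : ℂ) / d) := fun l h1 h2 =>
        root_form d hd0 _ (chi_pow d p hpp (χ p) hord l h1 (by omega))
      have hu : ∀ l : pq d 0 y, ∃ u : Fin d, χ p ((l : ℕ) : ZMod p) =
          Complex.exp (2 * Real.pi * Complex.I * ((u : ℕ) : ℂ) / d) := fun l => by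
        have h := l.2
        rw [mem_pq] at h
        exact hroot _ h.1.2 h.1.1.2
      have hv' : ∀ l : SP d, ∃ u : Fin d, χ p ((l : ℕ) : ZMod p) =
          Complex.exp (2 * Real.pi * Complex.I * ((u : ℕ) : ℂ) / d) := fun l => by
        have h := l.2
        simp only [SP, mem_erase, Nat.mem_primeFactors] at h
        exact hroot _ h.2.1 ((Nat.le_of_dvd hd0 h.2.2.1).trans (by omega))
      choose u hu using hu
      choose v hv' using hv'
      have hsQ : ∑ l : pq d 0 y, Real.log ‖1 - Complex.exp (2 * Real.pi * Complex.I *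
          ((u l : ℕ) : ℂ) / d) / ((l : ℕ) : ℂ)‖ =
          ∑ l ∈ pq d 0 y, Real.log ‖1 - χ p (l : ZMod p) / l‖ := by
        rw [← Finset.sum_coe_sort (pq d 0 y) (fun l => Real.log ‖1 - χ p (l : ZMod p) / l‖)]
        exact Finset.sum_congr rfl fun l _ => by rw [hu l]
      have hsS : ∑ l : SP d, Real.log ‖1 - Complex.exp (2 * Real.pi * Complex.I *
          ((v l : ℕ) : ℂ) / d) / ((l : ℕ) : ℂ)‖ =
          ∑ l ∈ SP d, Real.log ‖1 - χ p (l : ZMod p) / l‖ := by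
        rw [← Finset.sum_coe_sort (SP d) (fun l => Real.log ‖1 - χ p (l : ZMod p) / l‖)]
        exact Finset.sum_congr rfl fun l _ => by rw [hv' l]
      have hmR : (1 : ℝ) ≤ m := by exact_mod_cast hm1
      have hpi : 0 ≤ Real.log (Real.pi / 2) := Real.log_nonneg (by linarith [Real.pi_gt_three])
      have hcast2 : ((2 : ℕ) : ℂ) = 2 := by norm_num
      set SS := ∑ l ∈ SP d, Real.log ‖1 - χ p (l : ZMod p) / l‖
      set S0 := ∑ l ∈ pq d 0 z, Real.log ‖1 - χ p (l : ZMod p) / l‖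
      set S1 := ∑ l ∈ pq d y z, Real.log ‖1 - χ p (l : ZMod p) / l‖
      set S2 := ∑ l ∈ pq d 0 y, Real.log ‖1 - χ p (l : ZMod p) / l‖
      set G := Real.log ‖1 - χ p ((2 : ℕ) : ZMod p) / (2 : ℕ)‖
      set LL := Real.log ‖DirichletCharacter.LFunction (χ p) 1‖
      rw [hs1] at hp1'
      push_cast at hs4
      rw [abs_le] at hp1' hs3 hs4 hs5
      have hmM : m ≤ M := by
        have h1 : Real.log m ≤ 2 * (K + (SP d).card + 3) := by
          linarith [hp1'.1, hp1'.2, hs4.1, hs4.2, hs5.1, hs5.2]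
        have h2 : (m : ℝ) ≤ Real.exp (2 * (K + (SP d).card + 3)) := by
          rw [← Real.log_le_iff_le_exp (by linarith)]; exact h1
        exact_mod_cast h2.trans hM
      refine ⟨(m, v), ?_, u, ?_, fun l => hu l⟩
      · rw [mem_product, mem_range]
        exact ⟨by omega, mem_univ _⟩
      · simp only
        rw [hsQ, hsS, abs_le]
        constructor <;> linarith [hp1'.1, hp1'.2, hs3.1, hs3.2, hs5.1, hs5.2]
  have hcard' : ((BadP d x).card : ℝ) ≤ ((y : ℝ) + 1) + E1.card + E2.card + E3.card + R.card := by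
    exact_mod_cast hcard
  linarith

/-- The conclusion. -/
theorem fin {d : ℕ} (hd : 2 < d) (hTR : S_TR) (hE1 : S_E1 d) (hE2 : S_E2) (hLAC : S_LAC)
    (hPAT : S_PAT d) (hTAIL : S_TAIL d) (hCMB : S_CMB) : S_FIN d := by
  unfold S_FIN
  rw [Metric.tendsto_atTop]
  intro e he
  obtain ⟨x₀, hx₀⟩ := fin_aux hd hTR hE1 hE2 hLAC hPAT hTAIL hCMB (e / 16) (by positivity)
  -- Chebyshev
  have hch : ∀ᶠ x : ℕ in atTop, (1 / 2 : ℝ) * (x / Real.log x) ≤ Nat.primeCounting x := by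
    have h1 := (Real.isLittleO_log_id_atTop).comp_tendsto (tendsto_natCast_atTop_atTop (R := ℝ))
    have h2 := h1.bound (c := 1 / 20) (by norm_num)
    filter_upwards [h2, eventually_ge_atTop 100] with x hx hx3
    have hx31 : (100 : ℝ) ≤ x := by exact_mod_cast hx3
    have hl0 : 0 < Real.log (x : ℝ) := Real.log_pos (by linarith)
    have h3 := Chebyshev.pi_ge x
    refine le_trans ?_ h3
    simp only [Function.comp_apply, Real.norm_eq_abs, id] at hx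
    rw [abs_of_nonneg hl0.le, abs_of_nonneg (by linarith)] at hx
    have h4 : Real.log ((x : ℝ) + 1) ≤ Real.log x + 1 := by
      have h5 : Real.log ((x : ℝ) + 1) ≤ Real.log (2 * x) :=
        Real.log_le_log (by linarith) (by linarith)
      rw [Real.log_mul (by norm_num) (by linarith)] at h5
      have := Real.log_two_lt_d9
      linarith
    have h6 := Real.log_two_gt_d9
    rw [show (1 / 2 : ℝ) * (x / Real.log x) = ((1 / 2 : ℝ) * x) / Real.log x by ring]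
    gcongr
    nlinarith
  obtain ⟨x₅, hx₅⟩ := eventually_atTop.1 hch
  refine ⟨x₀ + x₅ + 3, fun x hx => ?_⟩
  have h1 := hx₀ x (by omega)
  have h2 := hx₅ x (by omega)
  have hx3R : (3 : ℝ) ≤ x := by exact_mod_cast (by omega : 3 ≤ x)
  have hl0 : 0 < Real.log x := Real.log_pos (by linarith)
  have h3 : 0 < (x : ℝ) / Real.log x := by positivity
  have h4 : (0 : ℝ) < Nat.primeCounting x := by linarith
  rw [Real.dist_eq, sub_zero, abs_of_nonneg (by positivity), div_lt_iff₀ h4]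
  nlinarith

end Pool.Agent.H577.QR
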