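import Pool.Agent.H577.QR.Stm

/-!
# Project QR (helper577), second wave: counting the patterns

`pq d y z`: the primes `l ∤ 2 d`, `y < l ≤ z`.
-/

set_option autoImplicit false

namespace Pool.Agent.H577.QR

open Finset Filter

/-- the primes `l` not dividing `2 d` with `y < l ≤ z` -/
def pq (d y z : ℕ) : Finset ℕ := (pr y z).filter (fun l => ¬ l ∣ 2 * d)

open scoped Classical in
/-- (PAT) number of primes with given values of the characters of order `d`; the constant does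
not depend on `Q`.

Proof (from `S_M d`, with its constant `C`). Let `N` be the set of the numbers
`n(j) = ∏_{l ∈ Q} l^{j l}`, `0 ≤ j l < d`; `j ↦ n(j)` is injective (`v_l (n(j)) = j l`), so `N` has
`d ^ |Q|` elements. They are prime to `2 d` and at most `log x` for large `x` (`A = 1`), and
`n(j) n(j')^(d-1)` is not a `d`-th power for `j ≠ j'` (`v_l = j l + (d-1) j' l ≡ j l - j' l (mod d)`).
Put `c n = ∏_{l ∈ Q} (conj (w l) ^ (v_l n) / d)`. Then
`∑_{n ∈ N} c n χ(n) = ∏_{l ∈ Q} (1/d) ∑_{j < d} (χ(l) conj (w l))^j`, which is `1` if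
`χ(l) = w l` for all `l ∈ Q` (`Finset.prod_univ_sum`, or induction on `Q`), and
`∑ ‖c n‖² = d ^ |Q| · d ^ (-2 |Q|)`. -/
def S_PAT (d : ℕ) : Prop := ∃ C : ℝ, 0 < C ∧ ∀ Q : Finset ℕ, (∀ l ∈ Q, l.Prime ∧ ¬ l ∣ 2 * d) →
  ∃ x₀ : ℕ, ∀ x : ℕ, x₀ ≤ x → ∀ (w : ℕ → ℂ) (χ : (p : ℕ) → DirichletCharacter ℂ p),
  (∀ l ∈ Q, w l ^ d = 1) →
  (((Icc 1 x).filter (fun p => p.Prime ∧ orderOf (χ p) = d ∧
    ∀ l ∈ Q, χ p (l : ZMod p) = w l)).card : ℝ) ≤ C * (x / Real.log x) / (d : ℝ) ^ Q.card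

open scoped Classical in
/-- (TAIL) the sums over the medium primes are small in mean square.

Proof (from `S_M d`): `N = pq d y z` with `z ≤ (log x)^21` (`A = 21`), `c n = 1/n`;
`l * l'^(d-1)` is not a `d`-th power for different primes (`2 ≤ d`); `∑_{l > y} 1/l² ≤ 2/(y+1)`;
Chebyshev's inequality. -/
def S_TAIL (d : ℕ) : Prop := ∃ C : ℝ, 0 < C ∧ ∃ x₀ : ℕ, ∀ x : ℕ, x₀ ≤ x → ∀ y z : ℕ,
  (z : ℝ) ≤ Real.log x ^ 21 → ∀ η : ℝ, 0 < η → ∀ χ : (p : ℕ) → DirichletCharacter ℂ p,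
  (((Icc 1 x).filter (fun p => p.Prime ∧ orderOf (χ p) = d ∧
    η < ‖∑ l ∈ pq d y z, χ p (l : ZMod p) / l‖)).card : ℝ) ≤
      C * (x / Real.log x) / (η ^ 2 * (y + 1))

open scoped Classical in
/-- (CMB) few patterns have a given sum of logarithms.

Here a pattern on `Q` is a function `u : Q → Fin d`, standing for the values
`w l = exp (2 π i (u l) / d)`. If `T ⊆ Q` has the property of `S_LAC` with the gap `γ`, then at most
`2 ^ |T| d ^ (|Q| - |T|)` patterns have their sum in a given interval of length `γ`.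

Proof. Group the patterns by their restriction to `Q \ T` (`d ^ (|Q| - |T|)` groups). Two patterns
of a group in the interval have sums over `T` which differ by at most `γ`, so by the hypothesis
the real parts of their values agree on `T`; as for every real number `r` at most two `u : Fin d` have
`Re exp (2 π i u / d) = r` (the value has norm one, so its imaginary part is `± √(1 - r²)`, and
`u ↦ exp (2 π i u / d)` is injective), a group has at most `2 ^ |T|` patterns in the interval. -/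
def S_CMB : Prop := ∀ (d : ℕ) (Q T : Finset ℕ) (γ a : ℝ), 0 < d → T ⊆ Q → 0 < γ →
  (∀ w w' : ℕ → ℂ, (∀ l ∈ T, w l ^ d = 1 ∧ w' l ^ d = 1) →
    |∑ l ∈ T, Real.log ‖1 - w l / l‖ - ∑ l ∈ T, Real.log ‖1 - w' l / l‖| ≤ γ →
    ∀ l ∈ T, (w l).re = (w' l).re) →
  (((univ : Finset (Q → Fin d)).filter (fun u => |∑ l : Q,
    Real.log ‖1 - Complex.exp (2 * Real.pi * Complex.I * ((u l : ℕ) : ℂ) / d) / ((l : ℕ) : ℂ)‖ - a| ≤
      γ / 2)).card : ℝ) ≤ 2 ^ T.card * (d : ℝ) ^ (Q.card - T.card)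

end Pool.Agent.H577.QR
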